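import Pool.Agent.CycApx.Special3
import Pool.Agent.CycLat.Bh

/-!
# MP_462568_co: the threshold `g(m,h)` for every fixed size `m`, `h → ∞`

`CycLat.g m h` is the least positive `N` such that every cyclic group of order `n ≥ N` contains a
`B_h` set (`CycLat.IsBh`) with at least `m` elements.  `CycLat.sx x = max (∑ xᵢ⁺) (∑ xᵢ⁻)` is the norm
whose unit ball is the difference body of the standard simplex of `ℝ^(m-1)`, and `CycLat.crit F` is
the critical determinant of the open unit ball of `F`: the infimum of `|det M|` over all real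
matrices `M`, `det M ≠ 0`, such that `1 ≤ F (z M)` for all integer vectors `z ≠ 0`.
-/

set_option autoImplicit false

namespace Pool.Agent.Results.MP_462568_co.AllSizes

open Filter Topology CycLat Pool.Agent.CycApx

/-- the critical determinant of the difference body of the simplex of dimension `m - 1` -/
noncomputable def Δ (m : ℕ) : ℝ := crit (sx : (Fin (m - 1) → ℝ) → ℝ)

private theorem g_upper (e : ℕ) (ε : ℝ) (hε : 0 < ε) : ∃ n₀ : ℕ, ∀ h : ℕ, 1 ≤ h →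
    (g (e + 3) h : ℝ) ≤ (crit (sx : (Fin (e + 2) → ℝ) → ℝ) + ε) * ((h : ℝ) + 1) ^ (e + 2) +
      (n₀ + 2) := by
  obtain ⟨n₀, hn₀⟩ := main_apx (e := e) isNorm_sx ε hε
  have hc := crit_nonneg (sx : (Fin (e + 2) → ℝ) → ℝ)
  refine ⟨n₀, fun h hh => ?_⟩
  set X : ℝ := (crit (sx : (Fin (e + 2) → ℝ) → ℝ) + ε) * ((h : ℝ) + 1) ^ (e + 2) with hX
  have hX0 : 0 ≤ X := by positivity
  have h1 : g (e + 3) h ≤ n₀ + 1 + ⌈X⌉₊ := by
    refine Nat.sInf_le ⟨by omega, fun n hn => ?_⟩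
    obtain ⟨b, hb⟩ := hn₀ n (by omega)
    have h2 : X ≤ n := (Nat.le_ceil X).trans (by exact_mod_cast (by omega : ⌈X⌉₊ ≤ n))
    have h3 := hb ((h : ℝ) + 1) (by positivity) h2
    refine bh_of_adm n h hh b fun w hw hd => ?_
    have h4 := h3 w hw hd
    linarith
  have h2 : (g (e + 3) h : ℝ) ≤ n₀ + 1 + (⌈X⌉₊ : ℝ) := by exact_mod_cast h1
  have h3 := Nat.ceil_lt_add_one hX0
  linarith

private theorem g_lower (e h : ℕ) (hh : 1 ≤ h) :
    crit (sx : (Fin (e + 2) → ℝ) → ℝ) * ((h : ℝ) + 1) ^ (e + 2) ≤ g (e + 3) h := by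
  have hne : {N : ℕ | 0 < N ∧ ∀ n : ℕ, N ≤ n → ∃ A : Finset (ZMod n),
      e + 3 ≤ A.card ∧ IsBh h A}.Nonempty := by
    obtain ⟨n₀, hn₀⟩ := main_apx (e := e) isNorm_sx 1 one_pos
    have hc := crit_nonneg (sx : (Fin (e + 2) → ℝ) → ℝ)
    set X : ℝ := (crit (sx : (Fin (e + 2) → ℝ) → ℝ) + 1) * ((h : ℝ) + 1) ^ (e + 2) with hX
    refine ⟨n₀ + 1 + ⌈X⌉₊, by omega, fun n hn => ?_⟩
    obtain ⟨b, hb⟩ := hn₀ n (by omega)
    have h2 : X ≤ n := (Nat.le_ceil X).trans (by exact_mod_cast (by omega : ⌈X⌉₊ ≤ n))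
    have h3 := hb ((h : ℝ) + 1) (by positivity) h2
    refine bh_of_adm n h hh b fun w hw hd => ?_
    have h4 := h3 w hw hd
    linarith
  obtain ⟨h1, h2⟩ := Nat.sInf_mem hne
  obtain ⟨A, hA, hB⟩ := h2 _ le_rfl
  obtain ⟨b, hb⟩ := adm_of_bh (d := e + 2) _ h h1 A hA hB
  exact lower isNorm_sx _ h1 b _ (by positivity) hb

private theorem g_limit (e : ℕ) : Tendsto (fun h : ℕ => (g (e + 3) h : ℝ) / (h : ℝ) ^ (e + 2)) atTop
    (𝓝 (crit (sx : (Fin (e + 2) → ℝ) → ℝ))) := by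
  set c : ℝ := crit (sx : (Fin (e + 2) → ℝ) → ℝ) with hc
  have hc0 : 0 ≤ c := crit_nonneg _
  refine tendsto_order.2 ⟨fun a ha => ?_, fun a ha => ?_⟩
  · filter_upwards [eventually_ge_atTop 1] with h hh
    refine ha.trans_le ?_
    have hpos : (0 : ℝ) < h := by exact_mod_cast hh
    rw [le_div_iff₀ (by positivity)]
    refine le_trans ?_ (g_lower e h hh)
    exact mul_le_mul_of_nonneg_left (pow_le_pow_left₀ hpos.le (by linarith) _) hc0
  · have hε : 0 < (a - c) / 2 := by linarith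
    obtain ⟨n₀, hn₀⟩ := g_upper e ((a - c) / 2) hε
    have h0 : Tendsto (fun h : ℕ => 1 / (h : ℝ)) atTop (𝓝 0) := tendsto_one_div_atTop_nhds_zero_nat
    have h1 : Tendsto (fun h : ℕ => (c + (a - c) / 2) * (1 + 1 / (h : ℝ)) ^ (e + 2) +
        ((n₀ : ℝ) + 2) * (1 / (h : ℝ)) ^ (e + 2)) atTop
        (𝓝 ((c + (a - c) / 2) * (1 + 0) ^ (e + 2) + ((n₀ : ℝ) + 2) * 0 ^ (e + 2))) :=
      (((h0.const_add 1).pow (e + 2)).const_mul _).add ((h0.pow (e + 2)).const_mul _)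
    have h2 : (c + (a - c) / 2) * (1 + 0) ^ (e + 2) + ((n₀ : ℝ) + 2) * 0 ^ (e + 2) < a := by
      rw [add_zero, one_pow, zero_pow (by omega)]
      linarith
    filter_upwards [h1.eventually_lt_const h2, eventually_ge_atTop 1] with h hlt hh
    refine lt_of_le_of_lt ?_ hlt
    have hpos : (0 : ℝ) < h := by exact_mod_cast hh
    rw [div_le_iff₀ (by positivity)]
    refine (hn₀ h hh).trans (le_of_eq ?_)
    have e1 : (1 + 1 / (h : ℝ)) ^ (e + 2) * (h : ℝ) ^ (e + 2) = ((h : ℝ) + 1) ^ (e + 2) := by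
      rw [← mul_pow]
      congr 1
      field_simp
    have e2 : (1 / (h : ℝ)) ^ (e + 2) * (h : ℝ) ^ (e + 2) = 1 := by
      rw [← mul_pow, one_div, inv_mul_cancel₀ hpos.ne', one_pow]
    calc (crit (sx : (Fin (e + 2) → ℝ) → ℝ) + (a - c) / 2) * ((h : ℝ) + 1) ^ (e + 2) +
          ((n₀ : ℝ) + 2)
        = (c + (a - c) / 2) * ((1 + 1 / (h : ℝ)) ^ (e + 2) * (h : ℝ) ^ (e + 2)) +
          ((n₀ : ℝ) + 2) * ((1 / (h : ℝ)) ^ (e + 2) * (h : ℝ) ^ (e + 2)) := by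
          rw [e1, e2, mul_one]
      _ = _ := by ring

/-- For every fixed `m ≥ 3` the threshold `g(m,h)` of `B_h` sets of size `m` in cyclic groups satisfies
`g(m,h) ~ Δ_m h^(m-1)` as `h → ∞`, and `g(m,h) ≥ Δ_m (h+1)^(m-1)` for all `h ≥ 1`, where `Δ_m` is the
critical determinant of the difference body of the simplex of dimension `m - 1`; moreover
`C(2m-2, m-1) / (2^(m-1) (m-1)!) ≤ Δ_m ≤ C(2m-2, m-1) / (m-1)!`, `Δ_3 = 3/4`, `5/12 ≤ Δ_4 ≤ 49/108`. -/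
theorem result :
    (∀ m : ℕ, 3 ≤ m →
      Tendsto (fun h : ℕ => (g m h : ℝ) / (h : ℝ) ^ (m - 1)) atTop (𝓝 (Δ m)) ∧
      (∀ h : ℕ, 1 ≤ h → Δ m * ((h : ℝ) + 1) ^ (m - 1) ≤ g m h) ∧
      ((2 * (m - 1)).choose (m - 1) : ℝ) / (2 ^ (m - 1) * (m - 1).factorial) ≤ Δ m ∧
      Δ m ≤ ((2 * (m - 1)).choose (m - 1) : ℝ) / (m - 1).factorial) ∧
    Δ 3 = 3 / 4 ∧ 5 / 12 ≤ Δ 4 ∧ Δ 4 ≤ 49 / 108 := by
  refine ⟨fun m hm => ?_, crit_two, ?_, crit_three_le⟩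
  · obtain ⟨e, rfl⟩ : ∃ e, m = e + 3 := ⟨m - 3, by omega⟩
    exact ⟨g_limit e, fun h hh => g_lower e h hh, crit_ge e, crit_le_vol e⟩
  · refine le_trans (le_of_eq ?_) (crit_ge 1)
    norm_num [Nat.choose, Nat.factorial]

end Pool.Agent.Results.MP_462568_co.AllSizes
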