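import Mathlib
import Pool.Agent.Lib.PNT

/-!
# The threshold for `B_h` sets of size `m` in cyclic groups, for fixed `h` and large `m`

For `k ≤ h` one has `binom(m, k) binom(m - k, h - k) ≤ g(m, h)`, and for every `ε > 0` one has
`g(m, h) ≤ (h + ε) m ^ h` for all large `m`.

Proof. Lower bound: if `A` is a `B_h` set, the differences `∑ S - ∑ T` of disjoint subsets `S`, `T`
of `A` with `k` and `h - k` elements are distinct. Upper bound: the sets of Bose and Chowla for a
prime `p` with `m < p ≤ (1 + δ) m`, as sets of integers, reduced modulo any `n ≥ h p ^ h`.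
-/

set_option autoImplicit false

open Filter Polynomial

namespace Pool.Agent.Results.MP_462568_co.OrderInSize

/-- `A` is a `B_h` set: two multisets of `h` elements of `A` with equal sums are equal. -/
def IsBh {G : Type} [AddCommMonoid G] (h : ℕ) (A : Finset G) : Prop :=
  ∀ s t : Multiset G, s.card = h → t.card = h → (∀ x ∈ s, x ∈ A) → (∀ x ∈ t, x ∈ A) →
    s.sum = t.sum → s = t

/-- `g m h` is the least positive `N` such that for every `n ≥ N` the cyclic group of order `n`
contains a `B_h` set with at least `m` elements. -/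
noncomputable def g (m h : ℕ) : ℕ :=
  sInf {N : ℕ | 0 < N ∧ ∀ n : ℕ, N ≤ n → ∃ A : Finset (ZMod n), m ≤ A.card ∧ IsBh h A}

/-- The sets of Bose and Chowla. -/
theorem boseChowla (p h : ℕ) [hp : Fact p.Prime] (hh : 2 ≤ h) :
    ∃ B : Finset ℕ, B.card = p ∧ (∀ b ∈ B, b < p ^ h) ∧ IsBh h B := by
  classical
  have hh0 : h ≠ 0 := by omega
  set F := GaloisField p h with hF
  obtain ⟨u, hu⟩ := IsCyclic.exists_generator (α := Fˣ)
  have hcard : Nat.card Fˣ = p ^ h - 1 := by
    rw [Nat.card_units, GaloisField.card p h hh0]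
  have hord : orderOf u = p ^ h - 1 := by
    rw [orderOf_eq_card_of_forall_mem_zpowers hu, hcard]
  have hppos : 0 < p ^ h := pow_pos hp.out.pos h
  let θ : F := (u : F)
  have hfin : Module.finrank (ZMod p) F = h := GaloisField.finrank p hh0
  have hint : IsIntegral (ZMod p) θ := Algebra.IsIntegral.isIntegral θ
  have htop : IntermediateField.adjoin (ZMod p) {θ} = ⊤ := by
    rw [eq_top_iff]
    intro x _
    by_cases hx : x = 0
    · rw [hx]; exact zero_mem _
    · obtain ⟨k, hk⟩ := Subgroup.mem_zpowers_iff.1 (hu (Units.mk0 x hx))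
      have h1 : θ ^ k = x := by
        have := congrArg (fun y : Fˣ => (y : F)) hk
        simpa [θ] using this
      rw [← h1]
      exact zpow_mem (IntermediateField.mem_adjoin_simple_self _ _) k
  have hdeg : (minpoly (ZMod p) θ).natDegree = h := by
    rw [← IntermediateField.adjoin.finrank hint, htop, IntermediateField.finrank_top', hfin]
  have hne : ∀ α : ZMod p, θ + algebraMap (ZMod p) F α ≠ 0 := by
    intro α h0
    have h1 : aeval θ (X + C α : (ZMod p)[X]) = 0 := by simpa using h0
    have h3 := natDegree_le_of_dvd (minpoly.dvd (ZMod p) θ h1) (X_add_C_ne_zero α)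
    rw [hdeg, natDegree_X_add_C] at h3
    omega
  have hex : ∀ α : ZMod p, ∃ k : ℕ, k < p ^ h ∧ (u : F) ^ k = θ + algebraMap (ZMod p) F α := by
    intro α
    obtain ⟨k, hk1, hk2⟩ := Finset.mem_image.1 (mem_zpowers_iff_mem_range_orderOf.1
      (hu (Units.mk0 _ (hne α))))
    rw [Finset.mem_range, hord] at hk1
    refine ⟨k, by omega, ?_⟩
    have h1 := congrArg (fun y : Fˣ => (y : F)) hk2
    simpa using h1
  choose e he1 he2 using hex
  have heinj : Function.Injective e := by
    intro α β hαβ
    have h1 : θ + algebraMap (ZMod p) F α = θ + algebraMap (ZMod p) F β := by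
      rw [← he2, ← he2, hαβ]
    exact (algebraMap (ZMod p) F).injective (add_left_cancel h1)
  refine ⟨Finset.univ.image e, ?_, ?_, ?_⟩
  · rw [Finset.card_image_of_injective _ heinj, Finset.card_univ, ZMod.card]
  · intro b hb
    obtain ⟨α, _, rfl⟩ := Finset.mem_image.1 hb
    exact he1 α
  · intro s t hs ht hsB htB hst
    have key : ∀ s : Multiset ℕ, s.card = h → (∀ x ∈ s, x ∈ Finset.univ.image e) →
        ∃ s' : Multiset (ZMod p), s = s'.map e ∧
          aeval θ (s'.map (fun α => (X + C α : (ZMod p)[X]))).prod = (u : F) ^ s.sum := by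
      intro s _ hsB
      have h1 : ∀ x ∈ s, ∃ α, e α = x := fun x hx => by
        obtain ⟨α, _, hα⟩ := Finset.mem_image.1 (hsB x hx)
        exact ⟨α, hα⟩
      obtain ⟨s', hs'⟩ : ∃ s' : Multiset (ZMod p), s'.map e = s := by
        refine ⟨s.map (fun x => Function.invFun e x), ?_⟩
        rw [Multiset.map_map]
        conv_rhs => rw [← Multiset.map_id s]
        refine Multiset.map_congr rfl fun x hx => ?_
        exact Function.invFun_eq (h1 x hx)
      refine ⟨s', hs'.symm, ?_⟩
      rw [← hs', map_multiset_prod, Multiset.map_map]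
      clear hs' h1 hsB
      induction s' using Multiset.induction_on with
      | empty => simp
      | cons a s ih =>
        rw [Multiset.map_cons, Multiset.prod_cons, ih, Multiset.map_cons, Multiset.sum_cons,
          pow_add, he2]
        simp
    obtain ⟨s', hs1, hs2⟩ := key s hs hsB
    obtain ⟨t', ht1, ht2⟩ := key t ht htB
    have hsc : s'.card = h := by rw [← hs, hs1, Multiset.card_map]
    have htc : t'.card = h := by rw [← ht, ht1, Multiset.card_map]
    set P : Multiset (ZMod p) → (ZMod p)[X] :=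
      fun s => (s.map (fun α => (X + C α : (ZMod p)[X]))).prod with hP
    have hmon : ∀ s, (P s).Monic := fun s => monic_multiset_prod_of_monic _ _ fun α _ => monic_X_add_C α
    have hdegP : ∀ s, (P s).degree = (s.card : ℕ) := by
      intro s
      rw [degree_eq_natDegree (hmon s).ne_zero]
      congr 1
      rw [hP]
      simp only
      rw [natDegree_multiset_prod_of_monic]
      · simp [Multiset.map_map]
      · intro q hq
        obtain ⟨α, _, rfl⟩ := Multiset.mem_map.1 hq
        exact monic_X_add_C α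
    have hPeq : P s' = P t' := by
      by_contra hne'
      have h0 : aeval θ (P s' - P t') = 0 := by
        rw [map_sub, sub_eq_zero]
        rw [hs2, ht2, hst]
      have h1 : (P s' - P t').degree < (P s').degree :=
        degree_sub_lt_left (by rw [hdegP, hdegP, hsc, htc]) (hmon s').ne_zero
          (by rw [(hmon s').leadingCoeff, (hmon t').leadingCoeff])
      have h2 := natDegree_le_of_dvd (minpoly.dvd (ZMod p) θ h0) (sub_ne_zero.2 hne')
      rw [hdeg] at h2
      have h3 : (P s' - P t').natDegree < h := by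
        rw [hdegP, hsc] at h1
        exact (natDegree_lt_iff_degree_lt (sub_ne_zero.2 hne')).2 h1
      omega
    have hroots : ∀ s : Multiset (ZMod p), (P s).roots = s.map (fun α => -α) := by
      intro s
      have : P s = ((s.map (fun α => -α)).map (fun a => (X - C a : (ZMod p)[X]))).prod := by
        rw [hP, Multiset.map_map]
        simp only
        congr 1
        refine Multiset.map_congr rfl fun α _ => ?_
        simp
      rw [this, roots_multiset_prod_X_sub_C]
    have h4 : s'.map (fun α => -α) = t'.map (fun α => -α) := by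
      rw [← hroots, ← hroots, hPeq]
    have h5 : s' = t' := Multiset.map_injective neg_injective h4
    rw [hs1, ht1, h5]

/-- From the integers to all large cyclic groups. -/
theorem to_zmod {h N n : ℕ} (hh : 1 ≤ h) {B : Finset ℕ} (hB : ∀ b ∈ B, b < N) (hBh : IsBh h B)
    (hn : h * N ≤ n) (hN : 0 < N) : ∃ A : Finset (ZMod n), B.card ≤ A.card ∧ IsBh h A := by
  classical
  have hNn : N ≤ n := le_trans (Nat.le_mul_of_pos_left N hh) hn
  have hn0 : NeZero n := ⟨by omega⟩
  have hval : ∀ b ∈ B, ((b : ZMod n)).val = b := fun b hb =>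
    ZMod.val_cast_of_lt (lt_of_lt_of_le (hB b hb) hNn)
  refine ⟨B.image (Nat.cast : ℕ → ZMod n), ?_, ?_⟩
  · rw [Finset.card_image_of_injOn]
    intro a ha b hb hab
    have h1 := congrArg ZMod.val hab
    rw [hval a ha, hval b hb] at h1
    exact h1
  · have hin : ∀ x ∈ B.image (Nat.cast : ℕ → ZMod n), x.val ∈ B := by
      intro x hx
      obtain ⟨b, hb, rfl⟩ := Finset.mem_image.1 hx
      rw [hval b hb]
      exact hb
    have key : ∀ s : Multiset (ZMod n), s.card = h →
        (∀ x ∈ s, x ∈ B.image (Nat.cast : ℕ → ZMod n)) →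
        (s.map ZMod.val).sum < n ∧ (((s.map ZMod.val).sum : ℕ) : ZMod n) = s.sum := by
      intro s hs hsB
      constructor
      · have h1 : (s.map ZMod.val).sum ≤ (s.map ZMod.val).card • (N - 1) := by
          refine Multiset.sum_le_card_nsmul _ _ fun y hy => ?_
          obtain ⟨x, hx, rfl⟩ := Multiset.mem_map.1 hy
          have := hB _ (hin x (hsB x hx))
          omega
        rw [Multiset.card_map, hs, smul_eq_mul] at h1
        have h2 : h * (N - 1) < h * N := Nat.mul_lt_mul_of_pos_left (by omega) (by omega)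
        omega
      · rw [Nat.cast_multiset_sum, Multiset.map_map]
        congr 1
        conv_rhs => rw [← Multiset.map_id s]
        refine Multiset.map_congr rfl fun x _ => ?_
        simp
    intro s t hs ht hsB htB hst
    obtain ⟨s1, s2⟩ := key s hs hsB
    obtain ⟨t1, t2⟩ := key t ht htB
    have h1 : (s.map ZMod.val).sum = (t.map ZMod.val).sum := by
      have h2 : (((s.map ZMod.val).sum : ℕ) : ZMod n) = (((t.map ZMod.val).sum : ℕ) : ZMod n) := by
        rw [s2, t2, hst]
      rw [ZMod.natCast_eq_natCast_iff'] at h2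
      rwa [Nat.mod_eq_of_lt s1, Nat.mod_eq_of_lt t1] at h2
    have h3 : s.map ZMod.val = t.map ZMod.val := by
      refine hBh _ _ (by rw [Multiset.card_map, hs]) (by rw [Multiset.card_map, ht]) ?_ ?_ h1
      · intro y hy
        obtain ⟨x, hx, rfl⟩ := Multiset.mem_map.1 hy
        exact hin x (hsB x hx)
      · intro y hy
        obtain ⟨x, hx, rfl⟩ := Multiset.mem_map.1 hy
        exact hin x (htB x hx)
    exact Multiset.map_injective (ZMod.val_injective n) h3

theorem good_of_prime {m h p : ℕ} (hh : 1 ≤ h) (hp : p.Prime) (hm : m ≤ p) :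
    h * p ^ h ∈ {N : ℕ | 0 < N ∧ ∀ n : ℕ, N ≤ n → ∃ A : Finset (ZMod n), m ≤ A.card ∧ IsBh h A} := by
  have hfact : Fact p.Prime := ⟨hp⟩
  have hpos : 0 < p ^ h := pow_pos hp.pos h
  refine ⟨Nat.mul_pos (by omega) hpos, fun n hn => ?_⟩
  obtain ⟨B, hB1, hB2, hB3⟩ : ∃ B : Finset ℕ, B.card = p ∧ (∀ b ∈ B, b < p ^ h) ∧ IsBh h B := by
    rcases Nat.lt_or_ge h 2 with h2 | h2
    · obtain rfl : h = 1 := by omega
      refine ⟨Finset.range p, Finset.card_range p, fun b hb => by simpa using hb, ?_⟩
      intro s t hs ht _ _ hst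
      obtain ⟨a, rfl⟩ := Multiset.card_eq_one.1 hs
      obtain ⟨b, rfl⟩ := Multiset.card_eq_one.1 ht
      simpa using hst
    · exact boseChowla p h h2
  obtain ⟨A, hA1, hA2⟩ := to_zmod hh hB2 hB3 hn hpos
  exact ⟨A, by omega, hA2⟩

theorem upper {m h p : ℕ} (hh : 1 ≤ h) (hp : p.Prime) (hm : m ≤ p) : g m h ≤ h * p ^ h :=
  Nat.sInf_le (good_of_prime hh hp hm)

theorem lower {m h k : ℕ} (hh : 1 ≤ h) (hk : k ≤ h) :
    m.choose k * (m - k).choose (h - k) ≤ g m h := by
  classical
  obtain ⟨p, hp1, hp2⟩ := Nat.exists_infinite_primes m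
  obtain ⟨hg0, hg⟩ := Nat.sInf_mem ⟨_, good_of_prime (m := m) hh hp2 hp1⟩
  change 0 < g m h at hg0
  obtain ⟨A₀, hA0, hA1⟩ := hg (g m h) le_rfl
  obtain ⟨A, hAA, hAm⟩ := Finset.exists_subset_card_eq hA0
  have hA : IsBh h A := fun s t hs ht h1 h2 => hA1 s t hs ht (fun x hx => hAA (h1 x hx))
    fun x hx => hAA (h2 x hx)
  have hne : NeZero (g m h) := ⟨by omega⟩
  set D := (A.powersetCard k).sigma fun S => (A \ S).powersetCard (h - k) with hD
  have hcard : D.card = m.choose k * (m - k).choose (h - k) := by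
    rw [hD, Finset.card_sigma, Finset.sum_congr rfl (g := fun _ => (m - k).choose (h - k))]
    · rw [Finset.sum_const, Finset.card_powersetCard, hAm, smul_eq_mul]
    · intro S hS
      obtain ⟨h1, h2⟩ := Finset.mem_powersetCard.1 hS
      rw [Finset.card_powersetCard, Finset.card_sdiff_of_subset h1, hAm, h2]
  rw [← hcard]
  have hinj : Set.InjOn (fun q : (_ : Finset (ZMod (g m h))) × Finset (ZMod (g m h)) =>
      ∑ x ∈ q.1, x - ∑ x ∈ q.2, x) D := by
    rintro ⟨S, T⟩ h1 ⟨S', T'⟩ h2 h3
    simp only [hD, Finset.coe_sigma, Set.mem_sigma_iff, Finset.mem_coe,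
      Finset.mem_powersetCard] at h1 h2
    simp only at h3
    obtain ⟨⟨a1, a2⟩, a3, a4⟩ := h1
    obtain ⟨⟨b1, b2⟩, b3, b4⟩ := h2
    have h4 : S.val + T'.val = S'.val + T.val := by
      refine hA _ _ ?_ ?_ ?_ ?_ ?_
      · rw [Multiset.card_add]; simp only [Finset.card_val]; omega
      · rw [Multiset.card_add]; simp only [Finset.card_val]; omega
      · intro x hx
        rcases Multiset.mem_add.1 hx with h | h
        · exact a1 h
        · exact Finset.sdiff_subset (b3 h)
      · intro x hx
        rcases Multiset.mem_add.1 hx with h | h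
        · exact b1 h
        · exact Finset.sdiff_subset (a3 h)
      · rw [Multiset.sum_add, Multiset.sum_add]
        have e1 : ∀ U : Finset (ZMod (g m h)), U.val.sum = ∑ x ∈ U, x := fun U => by
          rw [Finset.sum, Multiset.map_id']
        rw [e1, e1, e1, e1]
        linear_combination h3
    have hcnt : ∀ x, Multiset.count x S.val + Multiset.count x T'.val =
        Multiset.count x S'.val + Multiset.count x T.val := fun x => by
      rw [← Multiset.count_add, h4, Multiset.count_add]
    have hc : ∀ (U : Finset (ZMod (g m h))) x, Multiset.count x U.val = if x ∈ U then 1 else 0 :=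
      fun U x => Multiset.count_eq_of_nodup U.nodup
    have hST : ∀ x ∈ S, x ∉ T := fun x hx hx' => (Finset.mem_sdiff.1 (a3 hx')).2 hx
    have hST' : ∀ x ∈ S', x ∉ T' := fun x hx hx' => (Finset.mem_sdiff.1 (b3 hx')).2 hx
    have hSS : S = S' := by
      ext x
      have h5 := hcnt x
      rw [hc, hc, hc, hc] at h5
      constructor
      · intro hx
        by_contra hx'
        simp [hx, hx', hST x hx] at h5
      · intro hx
        by_contra hx'
        rw [if_neg hx', if_neg (hST' x hx), if_pos hx] at h5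
        omega
    subst hSS
    have hTT : T = T' := by
      have h6 : T'.val = T.val := add_left_cancel h4
      exact (Finset.val_inj.1 h6).symm
    subst hTT
    rfl
  calc D.card = (D.image (fun q : (_ : Finset (ZMod (g m h))) × Finset (ZMod (g m h)) =>
      ∑ x ∈ q.1, x - ∑ x ∈ q.2, x)).card := (Finset.card_image_of_injOn hinj).symm
    _ ≤ Fintype.card (ZMod (g m h)) := Finset.card_le_univ _
    _ = g m h := ZMod.card _

/-- For fixed `h` and large `m` the threshold `g(m, h)` lies between
`binom(m, k) binom(m - k, h - k)`, for every `k ≤ h`, and `(h + ε) m ^ h`. -/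
theorem result (h : ℕ) (hh : 1 ≤ h) :
    (∀ m k : ℕ, k ≤ h → m.choose k * (m - k).choose (h - k) ≤ g m h) ∧
    ∀ ε : ℝ, 0 < ε → ∀ᶠ m : ℕ in atTop, (g m h : ℝ) ≤ (h + ε) * (m : ℝ) ^ h := by
  refine ⟨fun m k hk => lower hh hk, fun ε hε => ?_⟩
  obtain ⟨δ, hδ, hδ2⟩ : ∃ δ : ℝ, 0 < δ ∧ (h : ℝ) * (1 + δ) ^ h ≤ h + ε := by
    have hcont : Tendsto (fun δ : ℝ => (h : ℝ) * (1 + δ) ^ h) (nhds 0) (nhds ((h : ℝ) * (1 + 0) ^ h)) := by
      refine Continuous.tendsto ?_ 0
      fun_prop
    rw [add_zero, one_pow, mul_one] at hcont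
    have h1 : ∀ᶠ δ : ℝ in nhds 0, (h : ℝ) * (1 + δ) ^ h < h + ε :=
      hcont.eventually (gt_mem_nhds (by linarith))
    obtain ⟨δ, h2, h3⟩ := ((h1.filter_mono nhdsWithin_le_nhds).and
      (self_mem_nhdsWithin (s := Set.Ioi (0 : ℝ)))).exists
    exact ⟨δ, h3, h2.le⟩
  have h1 := Pool.Agent.Lib.PNT.exists_prime_Ioc hδ
  filter_upwards [tendsto_natCast_atTop_atTop.eventually h1] with m hm
  obtain ⟨p, hp, hmp, hpm⟩ := hm
  have h2 : g m h ≤ h * p ^ h := upper hh hp (by exact_mod_cast hmp.le)
  calc (g m h : ℝ) ≤ (h : ℝ) * (p : ℝ) ^ h := by exact_mod_cast h2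
    _ ≤ (h : ℝ) * ((1 + δ) * m) ^ h := by gcongr
    _ = ((h : ℝ) * (1 + δ) ^ h) * (m : ℝ) ^ h := by rw [mul_pow]; ring
    _ ≤ (h + ε) * (m : ℝ) ^ h := by gcongr

end Pool.Agent.Results.MP_462568_co.OrderInSize
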