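import Mathlib

set_option autoImplicit false

namespace Pool.Agent.Results.MP_462568_co.SizeThree

/-- `A` is a `B_h` set: two `h`-term sums (repetition allowed) of elements of `A` that are equal
use the same multiset of elements. -/
def IsBh {G : Type} [AddCommMonoid G] (h : ℕ) (A : Finset G) : Prop :=
  ∀ s t : Multiset G, s.card = h → t.card = h → (∀ x ∈ s, x ∈ A) → (∀ x ∈ t, x ∈ A) →
    s.sum = t.sum → s = t

/-- `g m h` is the least positive `N` such that for every `n ≥ N` the cyclic group of order `n`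
contains a `B_h` set with at least `m` elements. -/
noncomputable def g (m h : ℕ) : ℕ :=
  sInf {N : ℕ | 0 < N ∧ ∀ n : ℕ, N ≤ n → ∃ A : Finset (ZMod n), m ≤ A.card ∧ IsBh h A}

/-- Sufficient condition for `{0, u, v}` to be a `B_h` set of size 3. -/
lemma exists_of_arith {n h : ℕ} (hh : 1 ≤ h) (u v : ℕ)
    (P : ∀ α β : ℤ, |α| ≤ h → |β| ≤ h → |α + β| ≤ h → (n : ℤ) ∣ α * u + β * v →
      α = 0 ∧ β = 0) :
    ∃ A : Finset (ZMod n), 3 ≤ A.card ∧ IsBh h A := by
  classical
  have hh' : (1 : ℤ) ≤ h := by exact_mod_cast hh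
  have key : ∀ α β : ℤ, |α| ≤ h → |β| ≤ h → |α + β| ≤ h →
      (α : ZMod n) * (u : ZMod n) + (β : ZMod n) * (v : ZMod n) = 0 → α = 0 ∧ β = 0 := by
    intro α β h1 h2 h3 h4
    apply P α β h1 h2 h3
    rw [← CharP.intCast_eq_zero_iff (ZMod n) n]
    push_cast
    exact h4
  have h0u : (0 : ZMod n) ≠ (u : ZMod n) := by
    intro h
    have := key 1 0 (by simpa using hh') (by simp) (by simpa using hh') (by simp [← h])
    omega
  have h0v : (0 : ZMod n) ≠ (v : ZMod n) := by
    intro h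
    have := key 0 1 (by simp) (by simpa using hh') (by simpa using hh') (by simp [← h])
    omega
  have huv : (u : ZMod n) ≠ (v : ZMod n) := by
    intro h
    have := key 1 (-1) (by simpa using hh') (by simpa using hh') (by simp) (by simp [← h])
    omega
  refine ⟨{0, (u : ZMod n), (v : ZMod n)}, ?_, ?_⟩
  · exact (Finset.card_eq_three.2 ⟨_, _, _, h0u, h0v, huv, rfl⟩).ge
  · intro s t hs ht hsA htA hsum
    set A : Finset (ZMod n) := {0, (u : ZMod n), (v : ZMod n)} with hA
    have hsub : s.toFinset ⊆ A := fun x hx => hsA x (Multiset.mem_toFinset.1 hx)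
    have htub : t.toFinset ⊆ A := fun x hx => htA x (Multiset.mem_toFinset.1 hx)
    have cs : s.card = s.count 0 + s.count (u : ZMod n) + s.count (v : ZMod n) := by
      rw [← Multiset.sum_count_eq_card (s := A) (m := s) (fun a ha => hsA a ha), hA,
        Finset.sum_insert (by simp [h0u, h0v]), Finset.sum_insert (by simp [huv]),
        Finset.sum_singleton]
      ring
    have ct : t.card = t.count 0 + t.count (u : ZMod n) + t.count (v : ZMod n) := by
      rw [← Multiset.sum_count_eq_card (s := A) (m := t) (fun a ha => htA a ha), hA,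
        Finset.sum_insert (by simp [h0u, h0v]), Finset.sum_insert (by simp [huv]),
        Finset.sum_singleton]
      ring
    have ss : s.sum = (s.count (u : ZMod n) : ZMod n) * u + (s.count (v : ZMod n) : ZMod n) * v := by
      rw [Finset.sum_multiset_count_of_subset s A hsub, hA,
        Finset.sum_insert (by simp [h0u, h0v]), Finset.sum_insert (by simp [huv]),
        Finset.sum_singleton]
      simp [nsmul_eq_mul]
    have st : t.sum = (t.count (u : ZMod n) : ZMod n) * u + (t.count (v : ZMod n) : ZMod n) * v := by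
      rw [Finset.sum_multiset_count_of_subset t A htub, hA,
        Finset.sum_insert (by simp [h0u, h0v]), Finset.sum_insert (by simp [huv]),
        Finset.sum_singleton]
      simp [nsmul_eq_mul]
    set i0 := s.count 0
    set i1 := s.count (u : ZMod n)
    set i2 := s.count (v : ZMod n)
    set j0 := t.count 0
    set j1 := t.count (u : ZMod n)
    set j2 := t.count (v : ZMod n)
    have hz := key ((i1 : ℤ) - j1) ((i2 : ℤ) - j2) (by rw [abs_le]; omega) (by rw [abs_le]; omega)
      (by rw [abs_le]; omega) (by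
        rw [ss, st] at hsum
        push_cast
        linear_combination hsum)
    ext a
    by_cases ha : a ∈ A
    · rw [hA] at ha
      simp only [Finset.mem_insert, Finset.mem_singleton] at ha
      rcases ha with rfl | rfl | rfl
      · change i0 = j0
        omega
      · change i1 = j1
        omega
      · change i2 = j2
        omega
    · rw [Multiset.count_eq_zero_of_notMem (fun h => ha (hsA a h)),
        Multiset.count_eq_zero_of_notMem (fun h => ha (htA a h))]

/-- The simple choice `{0, 1, h+1}`. -/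
lemma exists_simple {n h : ℕ} (hh : 1 ≤ h) (hn : h ^ 2 + h + 1 ≤ n) :
    ∃ A : Finset (ZMod n), 3 ≤ A.card ∧ IsBh h A := by
  apply exists_of_arith hh 1 (h + 1)
  intro α β h1 h2 h3 hdvd
  have e : α * ((1 : ℕ) : ℤ) + β * ((h + 1 : ℕ) : ℤ) = (α + β) + β * h := by push_cast; ring
  rw [e] at hdvd
  have hn' : (h : ℤ) ^ 2 + h + 1 ≤ n := by exact_mod_cast hn
  have hz : (α + β) + β * h = 0 := by
    apply Int.eq_zero_of_abs_lt_dvd hdvd
    calc |α + β + β * h| ≤ |α + β| + |β * h| := abs_add_le _ _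
      _ = |α + β| + |β| * h := by rw [abs_mul, abs_of_nonneg (by positivity : (0 : ℤ) ≤ h)]
      _ ≤ h + h * h := by
        apply add_le_add h3
        exact mul_le_mul_of_nonneg_right h2 (by positivity)
      _ < n := by linarith [sq (h : ℤ)]
  have hα : α = -(β * (h + 1)) := by linarith
  have hβ : β = 0 := by
    by_contra hne
    have h4 : 1 ≤ |β| := Int.one_le_abs hne
    rw [hα, abs_neg, abs_mul, abs_of_nonneg (by positivity : (0 : ℤ) ≤ (h : ℤ) + 1)] at h1
    nlinarith
  refine ⟨?_, hβ⟩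
  rw [hα, hβ]; ring

/-- The choice `{0, x, 2x+1}`. -/
lemma exists_hex {n x q w h : ℕ} (hh : 1 ≤ h) (hn : n = q * x + w) (h1 : h + 1 ≤ 2 * x)
    (h2 : h + x + w + 2 ≤ q) :
    ∃ A : Finset (ZMod n), 3 ≤ A.card ∧ IsBh h A := by
  apply exists_of_arith hh x (2 * x + 1)
  -- the case of the multiple `+ n`
  have hone : ∀ α β : ℤ, |α| ≤ h → |β| ≤ h → |α + β| ≤ h →
      (α + 2 * β) * x + β = n → False := by
    intro α β h3 h4 h5 h6
    rw [abs_le] at h3 h4 h5
    have hn' : (n : ℤ) = q * x + w := by exact_mod_cast hn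
    have h1' : (h : ℤ) + 1 ≤ 2 * x := by exact_mod_cast h1
    have h2' : (h : ℤ) + x + w + 2 ≤ q := by exact_mod_cast h2
    have hx : (0 : ℤ) ≤ x := by positivity
    have hw : (0 : ℤ) ≤ w := by positivity
    set j : ℤ := q - (α + 2 * β) with hj
    have hβ : β = w + j * x := by
      have : (α + 2 * β) * x + β = q * x + w := by rw [h6, hn']
      rw [hj]; linarith
    have hj1 : j ≤ 1 := by
      by_contra hcon
      have : 2 ≤ j := by omega
      nlinarith
    have hαβ : α + β = q - j - β := by rw [hj]; ring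
    nlinarith
  intro α β h3 h4 h5 hdvd
  have e : α * (x : ℤ) + β * ((2 * x + 1 : ℕ) : ℤ) = (α + 2 * β) * x + β := by push_cast; ring
  rw [e] at hdvd
  obtain ⟨k, hk⟩ := hdvd
  have hn' : (n : ℤ) = q * x + w := by exact_mod_cast hn
  have h1' : (h : ℤ) + 1 ≤ 2 * x := by exact_mod_cast h1
  have h2' : (h : ℤ) + x + w + 2 ≤ q := by exact_mod_cast h2
  have hx : (1 : ℤ) ≤ x := by
    have : 1 ≤ x := by omega
    exact_mod_cast this
  have hw : (0 : ℤ) ≤ w := by positivity
  have hnpos : 2 * (h : ℤ) * x + h < 2 * n := by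
    rw [hn']
    nlinarith
  have hhnn : (0 : ℤ) ≤ h := by positivity
  have hs : |α + 2 * β| ≤ 2 * h := by
    have : α + 2 * β = (α + β) + β := by ring
    rw [this]
    calc |α + β + β| ≤ |α + β| + |β| := abs_add_le _ _
      _ ≤ 2 * h := by linarith
  have hval : |(α + 2 * β) * x + β| < 2 * n := by
    calc |(α + 2 * β) * x + β| ≤ |(α + 2 * β) * x| + |β| := abs_add_le _ _
      _ = |α + 2 * β| * x + |β| := by rw [abs_mul, abs_of_nonneg (by linarith : (0 : ℤ) ≤ x)]
      _ ≤ 2 * h * x + h := by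
        apply add_le_add _ h4
        exact mul_le_mul_of_nonneg_right hs (by linarith)
      _ < 2 * n := hnpos
  have hn0 : (0 : ℤ) < n := by nlinarith
  have hkabs : |k| < 2 := by
    rw [hk, abs_mul, abs_of_pos hn0] at hval
    nlinarith
  rw [abs_lt] at hkabs
  have hk3 : k = 0 ∨ k = 1 ∨ k = -1 := by omega
  rcases hk3 with rfl | rfl | rfl
  · rw [mul_zero] at hk
    rw [abs_le] at h3 h4 h5
    set s := α + 2 * β with hsdef
    have hs1 : s ≤ 1 := by
      by_contra hcon
      have : 2 ≤ s := by omega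
      nlinarith
    have hs2 : -1 ≤ s := by
      by_contra hcon
      have : s ≤ -2 := by omega
      nlinarith
    have hs3 : s = 0 ∨ s = 1 ∨ s = -1 := by omega
    rcases hs3 with h0 | h0 | h0
    · rw [h0] at hk
      constructor <;> omega
    · rw [h0] at hk
      exfalso; omega
    · rw [h0] at hk
      exfalso; omega
  · exact (hone α β h3 h4 h5 (by rw [hk]; ring)).elim
  · refine (hone (-α) (-β) (by rwa [abs_neg]) (by rwa [abs_neg]) ?_ ?_).elim
    · have : -α + -β = -(α + β) := by ring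
      rw [this, abs_neg]; exact h5
    · linear_combination -hk

/-- Choice of `x`: with `X` the integer square root of `n/3`. -/
lemma exists_of_sqrt {n X i' h : ℕ} (hh : 1 ≤ h) (hX1 : 3 * X ^ 2 ≤ n) (hi' : X ≤ 3 * i' ^ 2)
    (hX : h + 1 + 2 * i' ≤ 2 * X) :
    ∃ A : Finset (ZMod n), 3 ≤ A.card ∧ IsBh h A := by
  have hXpos : 0 < X := by omega
  set R := n - 3 * X ^ 2 with hR
  set r1 := R / X with hr1
  set r0 := R % X with hr0
  have hRdecomp : X * r1 + r0 = R := Nat.div_add_mod R X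
  have hr0lt : r0 < X := Nat.mod_lt _ hXpos
  have hex : ∃ i, X ≤ 3 * i ^ 2 + (r1 + 1) * i + r0 := ⟨i', by nlinarith⟩
  set i := Nat.find hex with hi
  have hspec : X ≤ 3 * i ^ 2 + (r1 + 1) * i + r0 := Nat.find_spec hex
  have hii' : i ≤ i' := Nat.find_min' hex (by nlinarith)
  have hipos : 0 < i := by
    rcases Nat.eq_zero_or_pos i with h0 | h0
    · rw [h0] at hspec
      omega
    · exact h0
  obtain ⟨k, hk⟩ : ∃ k, i = k + 1 := ⟨i - 1, by omega⟩
  have hprev : 3 * k ^ 2 + (r1 + 1) * k + r0 < X := by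
    have := Nat.find_min hex (by omega : k < Nat.find hex)
    omega
  obtain ⟨x, hx⟩ : ∃ x, X = x + i := ⟨X - i, by omega⟩
  obtain ⟨w, hw⟩ : ∃ w, 3 * i ^ 2 + (r1 + 1) * i + r0 = X + w :=
    ⟨3 * i ^ 2 + (r1 + 1) * i + r0 - X, by omega⟩
  apply exists_hex (x := x) (q := 3 * x + 6 * i + r1 + 1) (w := w) hh
  · have h1 : n = 3 * X ^ 2 + (X * r1 + r0) := by omega
    rw [h1]
    have hw' : (w : ℤ) = 3 * i ^ 2 + (r1 + 1) * i + r0 - X := by
      have : ((3 * i ^ 2 + (r1 + 1) * i + r0 : ℕ) : ℤ) = ((X + w : ℕ) : ℤ) := by rw [hw]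
      push_cast at this
      linarith
    have hx' : (X : ℤ) = x + i := by exact_mod_cast hx
    have : ((3 * X ^ 2 + (X * r1 + r0) : ℕ) : ℤ) =
        (((3 * x + 6 * i + r1 + 1) * x + w : ℕ) : ℤ) := by
      push_cast
      rw [hw', hx']
      ring
    exact_mod_cast this
  · omega
  · have h2 : w + 3 * k ^ 2 + (r1 + 1) * k + r0 < 3 * i ^ 2 + (r1 + 1) * i + r0 := by omega
    have h3 : 3 * i ^ 2 + (r1 + 1) * i = 3 * k ^ 2 + (r1 + 1) * k + (6 * k + 3 + r1 + 1) := by
      rw [hk]; ring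
    omega

/-! ### The lower bound -/

lemma eq_of_sum_eq {G : Type} [AddCommGroup G] {h : ℕ} {A : Finset G} (hA : IsBh h A)
    {a b c : G} (ha : a ∈ A) (hb : b ∈ A) (hc : c ∈ A) (hab : a ≠ b) (hac : a ≠ c) (hbc : b ≠ c)
    {x y z x' y' z' : ℕ} (hx : x ≤ h) (hy : y ≤ h) (hz : z ≤ h) (hx' : x' ≤ h) (hy' : y' ≤ h)
    (hz' : z' ≤ h) (hS : x + y + z = x' + y' + z')
    (heq : x • a + y • b + z • c = x' • a + y' • b + z' • c) : x = x' ∧ y = y' := by
  classical
  set p := (x - x') + (y - y') + (z - z') with hp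
  have hp' : p = (x' - x) + (y' - y) + (z' - z) := by omega
  have hph : p ≤ h := by omega
  have hst := hA
    (Multiset.replicate (x - x' + (h - p)) a + Multiset.replicate (y - y') b +
      Multiset.replicate (z - z') c)
    (Multiset.replicate (x' - x + (h - p)) a + Multiset.replicate (y' - y) b +
      Multiset.replicate (z' - z) c)
    (by simp only [Multiset.card_add, Multiset.card_replicate]; omega)
    (by simp only [Multiset.card_add, Multiset.card_replicate]; omega)
    (by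
      intro w hw
      simp only [Multiset.mem_add, Multiset.mem_replicate] at hw
      rcases hw with (⟨-, rfl⟩ | ⟨-, rfl⟩) | ⟨-, rfl⟩ <;> assumption)
    (by
      intro w hw
      simp only [Multiset.mem_add, Multiset.mem_replicate] at hw
      rcases hw with (⟨-, rfl⟩ | ⟨-, rfl⟩) | ⟨-, rfl⟩ <;> assumption)
    (by
      simp only [Multiset.sum_add, Multiset.sum_replicate]
      apply add_right_cancel (b := (min x x') • a + (min y y') • b + (min z z') • c)
      have e1 : (x - x' + (h - p)) • a + (y - y') • b + (z - z') • c +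
          ((min x x') • a + (min y y') • b + (min z z') • c) =
          (x • a + y • b + z • c) + (h - p) • a := by
        have f1 : x • a = (x - x') • a + (min x x') • a := by rw [← add_nsmul]; congr 1; omega
        have f2 : y • b = (y - y') • b + (min y y') • b := by rw [← add_nsmul]; congr 1; omega
        have f3 : z • c = (z - z') • c + (min z z') • c := by rw [← add_nsmul]; congr 1; omega
        rw [f1, f2, f3, add_nsmul]
        abel
      have e2 : (x' - x + (h - p)) • a + (y' - y) • b + (z' - z) • c +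
          ((min x x') • a + (min y y') • b + (min z z') • c) =
          (x' • a + y' • b + z' • c) + (h - p) • a := by
        have f1 : x' • a = (x' - x) • a + (min x x') • a := by rw [← add_nsmul]; congr 1; omega
        have f2 : y' • b = (y' - y) • b + (min y y') • b := by rw [← add_nsmul]; congr 1; omega
        have f3 : z' • c = (z' - z) • c + (min z z') • c := by rw [← add_nsmul]; congr 1; omega
        rw [f1, f2, f3, add_nsmul]
        abel
      rw [e1, e2, heq])
  have c1 := congrArg (Multiset.count a) hst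
  have c2 := congrArg (Multiset.count b) hst
  simp only [Multiset.count_add, Multiset.count_replicate, if_true, if_neg hab,
    if_neg hab.symm, if_neg hac.symm, if_neg hbc.symm] at c1 c2
  omega

/-- The hexagonal region. -/
def hexa (r : ℕ) : Finset (ℕ × ℕ) :=
  (Finset.range (r + 1)).biUnion (fun x => (Finset.Icc (r - x) (2 * r)).image (fun y => (x, y))) ∪
  (Finset.Icc (r + 1) (2 * r)).biUnion
    (fun x => (Finset.Icc 0 (3 * r - x)).image (fun y => (x, y)))

lemma hexa_card (r : ℕ) : 3 * r ^ 2 + 3 * r + 1 ≤ (hexa r).card := by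
  classical
  unfold hexa
  rw [Finset.card_union_of_disjoint, Finset.card_biUnion, Finset.card_biUnion]
  · have e1 : ∀ x ∈ Finset.range (r + 1),
        ((Finset.Icc (r - x) (2 * r)).image (fun y => (x, y))).card = r + 1 + x := by
      intro x hx
      rw [Finset.mem_range] at hx
      rw [Finset.card_image_of_injective _ (fun y y' h => (Prod.mk.inj h).2), Nat.card_Icc]
      omega
    have e2 : ∀ x ∈ Finset.Icc (r + 1) (2 * r),
        ((Finset.Icc 0 (3 * r - x)).image (fun y => (x, y))).card = 3 * r + 1 - x := by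
      intro x hx
      rw [Finset.mem_Icc] at hx
      rw [Finset.card_image_of_injective _ (fun y y' h => (Prod.mk.inj h).2), Nat.card_Icc]
      omega
    rw [Finset.sum_congr rfl e1, Finset.sum_congr rfl e2]
    have e3 : ∑ x ∈ Finset.Icc (r + 1) (2 * r), (3 * r + 1 - x) =
        ∑ x ∈ Finset.range r, (2 * r - x) := by
      have : Finset.Icc (r + 1) (2 * r) = (Finset.range r).image (fun x => x + (r + 1)) := by
        ext y
        simp only [Finset.mem_Icc, Finset.mem_image, Finset.mem_range]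
        constructor
        · intro hy
          exact ⟨y - (r + 1), by omega, by omega⟩
        · rintro ⟨x, hx, rfl⟩
          omega
      rw [this, Finset.sum_image (by intro a _ b _ h; simpa using h)]
      apply Finset.sum_congr rfl
      intro x hx
      rw [Finset.mem_range] at hx
      omega
    rw [e3]
    have e4 : ∀ r : ℕ, 3 * r ^ 2 + 3 * r + 1 =
        ∑ x ∈ Finset.range (r + 1), (r + 1 + x) + ∑ x ∈ Finset.range r, (2 * r - x) := by
      intro r
      have h1 : ∑ x ∈ Finset.range (r + 1), (r + 1 + x) + ∑ x ∈ Finset.range r, (2 * r - x) =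
          ∑ x ∈ Finset.range r, ((r + 1 + x) + (2 * r - x)) + (r + 1 + r) := by
        have h3 := Finset.sum_add_distrib (s := Finset.range r) (f := fun x => r + 1 + x)
          (g := fun x => 2 * r - x)
        rw [Finset.sum_range_succ]
        omega
      have h2 : ∀ x ∈ Finset.range r, (r + 1 + x) + (2 * r - x) = 3 * r + 1 := by
        intro x hx
        rw [Finset.mem_range] at hx
        omega
      rw [h1, Finset.sum_congr rfl h2, Finset.sum_const, Finset.card_range, smul_eq_mul]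
      ring
    exact (e4 r).le
  · intro x _ y _ hxy
    rw [Function.onFun, Finset.disjoint_left]
    rintro ⟨p, q⟩ h1 h2
    simp only [Finset.mem_image, Prod.mk.injEq] at h1 h2
    obtain ⟨_, _, h1, _⟩ := h1
    obtain ⟨_, _, h2, _⟩ := h2
    exact hxy (h1.trans h2.symm)
  · intro x _ y _ hxy
    rw [Function.onFun, Finset.disjoint_left]
    rintro ⟨p, q⟩ h1 h2
    simp only [Finset.mem_image, Prod.mk.injEq] at h1 h2
    obtain ⟨_, _, h1, _⟩ := h1
    obtain ⟨_, _, h2, _⟩ := h2
    exact hxy (h1.trans h2.symm)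
  · rw [Finset.disjoint_left]
    rintro ⟨p, q⟩ h1 h2
    simp only [Finset.mem_biUnion, Finset.mem_image, Prod.mk.injEq, Finset.mem_range,
      Finset.mem_Icc] at h1 h2
    obtain ⟨x, hx, _, _, h1, _⟩ := h1
    obtain ⟨y, hy, _, _, h2, _⟩ := h2
    omega

lemma hexa_mem {r : ℕ} {p : ℕ × ℕ} (hp : p ∈ hexa r) :
    p.1 ≤ 2 * r ∧ p.2 ≤ 2 * r ∧ r ≤ p.1 + p.2 ∧ p.1 + p.2 ≤ 3 * r := by
  obtain ⟨a, b⟩ := p
  simp only [hexa, Finset.mem_union, Finset.mem_biUnion, Finset.mem_image, Prod.mk.injEq,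
    Finset.mem_range, Finset.mem_Icc] at hp
  rcases hp with ⟨x, hx, y, hy, h1, h2⟩ | ⟨x, hx, y, hy, h1, h2⟩ <;> constructor <;>
    (try constructor) <;> omega

lemma lower {n h : ℕ} (hn : 0 < n) (hex : ∃ A : Finset (ZMod n), 3 ≤ A.card ∧ IsBh h A) :
    3 * (h / 2) ^ 2 + 3 * (h / 2) + 1 ≤ n := by
  classical
  obtain ⟨A, hA3, hA⟩ := hex
  obtain ⟨B, hBA, hB⟩ := Finset.exists_subset_card_eq hA3
  obtain ⟨a, b, c, hab, hac, hbc, rfl⟩ := Finset.card_eq_three.1 hB
  have ha : a ∈ A := hBA (by simp)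
  have hb : b ∈ A := hBA (by simp)
  have hc : c ∈ A := hBA (by simp)
  have : NeZero n := ⟨hn.ne'⟩
  set r := h / 2 with hr
  refine (hexa_card r).trans ?_
  have h1 : (hexa r).card ≤ (Finset.univ : Finset (ZMod n)).card := by
    apply Finset.card_le_card_of_injOn
      (fun p => p.1 • a + p.2 • b + (3 * r - p.1 - p.2) • c) (fun _ _ => Finset.mem_coe.2 (Finset.mem_univ _))
    intro p hp q hq heq
    have hp' := hexa_mem (Finset.mem_coe.1 hp)
    have hq' := hexa_mem (Finset.mem_coe.1 hq)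
    have := eq_of_sum_eq hA ha hb hc hab hac hbc (x := p.1) (y := p.2) (z := 3 * r - p.1 - p.2)
      (x' := q.1) (y' := q.2) (z' := 3 * r - q.1 - q.2) (by omega) (by omega) (by omega)
      (by omega) (by omega) (by omega) (by omega) heq
    exact Prod.ext this.1 this.2
  rwa [Finset.card_univ, ZMod.card] at h1

/-! ### The upper bound for large `h` -/

lemma real_estimate {s : ℝ} (hs : 8 ≤ s) {X t : ℝ} (hX0 : 0 ≤ X) (ht0 : 0 ≤ t)
    (hXt : X = 3 * t ^ 2) (hlt : 2 * X < s ^ 2 + 3 + 2 * t) :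
    3 * (X + 1) ^ 2 ≤ 3 / 4 * s ^ 4 + 3 * s ^ 3 := by
  have ht : t < 0.45 * s := by
    by_contra hcon
    push Not at hcon
    nlinarith
  have h1 : X + 1 ≤ s ^ 2 / 2 + 0.45 * s + 2.5 := by linarith
  have h2 : (X + 1) ^ 2 ≤ (s ^ 2 / 2 + 0.45 * s + 2.5) ^ 2 :=
    pow_le_pow_left₀ (by linarith) h1 2
  have h3 : (s ^ 2 / 2 + 0.45 * s + 2.5) ^ 2 =
      s ^ 4 / 4 + 0.45 * s ^ 3 + 2.7025 * s ^ 2 + 2.25 * s + 6.25 := by ring
  have h4 : 2.7025 * s ^ 2 + 2.25 * s + 6.25 ≤ 0.55 * s ^ 3 := by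
    have h5 : 0 ≤ s * (s - 8) := mul_nonneg (by linarith) (by linarith)
    have h6 : 0 ≤ s ^ 2 * (s - 8) := mul_nonneg (by positivity) (by linarith)
    nlinarith
  nlinarith

lemma upper_large {n h : ℕ} (hh : 64 ≤ h)
    (hn : (3 / 4 : ℝ) * (h : ℝ) ^ 2 + 3 * (h * Real.sqrt h) < (n : ℝ) + 1) :
    ∃ A : Finset (ZMod n), 3 ≤ A.card ∧ IsBh h A := by
  set X := Nat.sqrt (n / 3) with hX
  have hX1 : 3 * X ^ 2 ≤ n := by
    have : X ^ 2 ≤ n / 3 := Nat.sqrt_le' _
    omega
  have hX2 : n < 3 * (X + 1) ^ 2 := by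
    have : n / 3 < (X + 1) ^ 2 := Nat.lt_succ_sqrt' _
    omega
  set i' := Nat.sqrt (X / 3) + 1 with hi'
  have hi1 : X ≤ 3 * i' ^ 2 := by
    have : X / 3 < i' ^ 2 := Nat.lt_succ_sqrt' _
    omega
  apply exists_of_sqrt (by omega) hX1 hi1
  by_contra hcon
  push Not at hcon
  -- pass to the reals
  set s := Real.sqrt h with hs
  have hs2 : s ^ 2 = h := Real.sq_sqrt (by positivity)
  have hs0 : 0 ≤ s := Real.sqrt_nonneg _
  have hs8 : 8 ≤ s := by
    rw [hs]
    apply Real.le_sqrt_of_sq_le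
    have : (64 : ℝ) ≤ h := by exact_mod_cast hh
    linarith
  set t := Real.sqrt ((X : ℝ) / 3) with ht
  have ht2 : t ^ 2 = (X : ℝ) / 3 := Real.sq_sqrt (by positivity)
  have ht0 : 0 ≤ t := Real.sqrt_nonneg _
  have hi2 : (i' : ℝ) ≤ t + 1 := by
    have h1 : ((Nat.sqrt (X / 3) : ℕ) : ℝ) ≤ t := by
      rw [ht]
      apply Real.le_sqrt_of_sq_le
      have h2 : (Nat.sqrt (X / 3)) ^ 2 * 3 ≤ X := by
        have : (Nat.sqrt (X / 3)) ^ 2 ≤ X / 3 := Nat.sqrt_le' _
        omega
      have h3 : ((Nat.sqrt (X / 3) : ℕ) : ℝ) ^ 2 * 3 ≤ X := by exact_mod_cast h2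
      linarith
    rw [hi']
    push_cast
    linarith
  have hcon' : 2 * (X : ℝ) < h + 1 + 2 * i' := by exact_mod_cast hcon
  have hest := real_estimate hs8 (X := X) (t := t) (by positivity) ht0 (by linarith) (by
    rw [hs2]; linarith)
  have hX2' : (n : ℝ) + 1 ≤ 3 * ((X : ℝ) + 1) ^ 2 := by exact_mod_cast hX2
  have e1 : (3 / 4 : ℝ) * (h : ℝ) ^ 2 + 3 * (h * s) = 3 / 4 * s ^ 4 + 3 * s ^ 3 := by
    rw [← hs2]; ring
  rw [e1] at hn
  linarith

lemma small_ineq {h : ℕ} (h1 : 1 ≤ h) (h2 : h < 64) :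
    ((h : ℝ) ^ 2 + h + 1) ≤ 3 / 4 * (h : ℝ) ^ 2 + 3 * (h * Real.sqrt h) := by
  set s := Real.sqrt h with hs
  have hs2 : s ^ 2 = h := Real.sq_sqrt (by positivity)
  have hs0 : 0 ≤ s := Real.sqrt_nonneg _
  have hs1 : 1 ≤ s := by
    rw [hs]
    apply Real.le_sqrt_of_sq_le
    have : (1 : ℝ) ≤ h := by exact_mod_cast h1
    linarith
  have hs8 : s ≤ 8 := by
    rw [hs, Real.sqrt_le_left (by norm_num)]
    have : (h : ℝ) ≤ 64 := by exact_mod_cast h2.le
    linarith
  rw [← hs2]
  -- need s^4/4 + s^2 + 1 ≤ 3 s^3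
  have h3 : 0 ≤ s ^ 3 * (8 - s) := mul_nonneg (by positivity) (by linarith)
  have h4 : 0 ≤ s ^ 2 * (s - 1) := mul_nonneg (by positivity) (by linarith)
  have h5 : 1 ≤ s ^ 3 := one_le_pow₀ hs1
  nlinarith

/-- `g(3,h)` is asymptotically `3h²/4`, with an explicit error term. -/
theorem result : ∀ h : ℕ, 1 ≤ h →
    (3 / 4 : ℝ) * (h : ℝ) ^ 2 ≤ (g 3 h : ℝ) ∧
      (g 3 h : ℝ) ≤ 3 / 4 * (h : ℝ) ^ 2 + 3 * ((h : ℝ) * Real.sqrt h) := by
  intro h hh
  -- the defining set
  set T : Set ℕ := {N : ℕ | 0 < N ∧ ∀ n : ℕ, N ≤ n → ∃ A : Finset (ZMod n), 3 ≤ A.card ∧ IsBh h A}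
    with hT
  have hg : g 3 h = sInf T := rfl
  have hsimple : h ^ 2 + h + 1 ∈ T := ⟨by omega, fun n hn => exists_simple hh hn⟩
  have hmem : g 3 h ∈ T := by
    rw [hg]
    exact Nat.sInf_mem ⟨_, hsimple⟩
  constructor
  · have h1 := lower hmem.1 (hmem.2 _ le_rfl)
    have h2 : h ≤ 2 * (h / 2) + 1 := by omega
    have h3 : 3 * h ^ 2 ≤ 4 * (3 * (h / 2) ^ 2 + 3 * (h / 2) + 1) := by nlinarith
    have h4 : 3 * h ^ 2 ≤ 4 * g 3 h := h3.trans (Nat.mul_le_mul_left 4 h1)
    have h5 : (3 : ℝ) * (h : ℝ) ^ 2 ≤ 4 * (g 3 h : ℝ) := by exact_mod_cast h4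
    linarith
  · rcases Nat.lt_or_ge h 64 with hlt | hge
    · have h1 : g 3 h ≤ h ^ 2 + h + 1 := Nat.sInf_le hsimple
      have h2 : (g 3 h : ℝ) ≤ (h : ℝ) ^ 2 + h + 1 := by exact_mod_cast h1
      exact h2.trans (small_ineq hh hlt)
    · -- the least natural number above the bound is in `T`
      set B : ℝ := 3 / 4 * (h : ℝ) ^ 2 + 3 * ((h : ℝ) * Real.sqrt h) with hB
      have hB0 : 0 ≤ B := by positivity
      have hh' : (64 : ℝ) ≤ h := by exact_mod_cast hge
      have hs0 : 0 ≤ (h : ℝ) * Real.sqrt h := by positivity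
      have hB1 : 1 ≤ B := by
        rw [hB]
        nlinarith
      have hfl : ⌊B⌋₊ ∈ T := by
        refine ⟨Nat.floor_pos.2 hB1, ?_⟩
        intro n hn
        apply upper_large hge
        have h1 : B < (⌊B⌋₊ : ℝ) + 1 := Nat.lt_floor_add_one B
        have h2 : (⌊B⌋₊ : ℝ) ≤ n := by exact_mod_cast hn
        linarith
      have h1 : g 3 h ≤ ⌊B⌋₊ := Nat.sInf_le hfl
      have h2 : (g 3 h : ℝ) ≤ (⌊B⌋₊ : ℝ) := by exact_mod_cast h1
      exact h2.trans (Nat.floor_le hB0)

end Pool.Agent.Results.MP_462568_co.SizeThree
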